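import Pool.Agent.Helper53_Men.Dich
import Pool.Agent.Helper93_MEN.PStmts

/-!
# Squad MEN, module DEC
-/

open MeasureTheory Set

namespace Pool.Agent.Men.RR.H53

theorem dec (hDich : DichStmt) : DecStmt := by
  intro r A hA
  obtain ⟨p', h1, _, s', h3, h4⟩ := hDich Ix Ix univ isLowerSet_univ A hA
    (fun y y' x h => by
      have : y = y' := funext fun i => h i trivial
      rw [this]) r.1 r.2 r.1.below_univ
  refine ⟨(p', s'), ⟨h1, h3⟩, ?_⟩
  rcases h4 with h4 | h4
  · exact Or.inl h4
  · exact Or.inr (Set.subset_compl_iff_disjoint_right.2 h4)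

end Pool.Agent.Men.RR.H53
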