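import Pool.Agent.Helper53_Men.DichBase
import Pool.Agent.Helper22_Men.Stmts

/-!
# Squad MEN, modules DICH, CONST, STEM
-/

open MeasureTheory Set

set_option linter.unusedSectionVars false
set_option linter.style.haveILetI false

namespace Pool.Agent.Men.RR.H53

section
variable {I Λ : Type} [LinearOrder I] [WellFoundedLT I] [LinearOrder Λ] [WellFoundedLT Λ]

/-- The set `B` decides the set `X`. -/
def Dd {α : Type} (B X : Set α) : Prop := B ⊆ X ∨ Disjoint B X

theorem Dd.mono {α : Type} {B B' X : Set α} (h : Dd B X) (hB : B' ⊆ B) : Dd B' X :=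
  h.imp hB.trans fun h => h.mono_left hB

theorem Dd.subset {α : Type} {B X : Set α} (h : Dd B X) {a : α} (h1 : a ∈ B) (h2 : a ∈ X) :
    B ⊆ X := by
  rcases h with h | h
  · exact h
  · exact (Set.disjoint_left.1 h h1 h2).elim

/-- Decided sets of pairs. -/
def DcP (L : Set Λ) (X : Set (Pt ℕ Λ × Pt (Fin 2) I)) : Prop :=
  ∀ p : Cond ℕ Λ, p.Below L → ∀ s : Cond (Fin 2) I, ∃ p' ≤ p, p'.Below L ∧ ∃ s' ≤ s,
    Dd (p'.body ×ˢ s'.body) X

theorem Dd.compl {α : Type} {B X : Set α} (h : Dd B X) : Dd B Xᶜ := by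
  rcases h with h | h
  · right; exact Set.disjoint_compl_right_iff_subset.2 h
  · left; exact Set.subset_compl_iff_disjoint_right.2 h

/-- The union step for the product. -/
theorem unionP (hCrn : CrnStmt) (hHull : HullStmt) (hClo : CloStmt) {L : Set Λ}
    (hL : IsLowerSet L) (J : ℕ → Set Λ) (K : ℕ → Set I) (hJ : ∀ k, IsLowerSet (J k))
    (hK : ∀ k, IsLowerSet (K k)) (X : ℕ → Set (Pt ℕ Λ × Pt (Fin 2) I))
    (hX : ∀ k y y' x x', (∀ i ∈ J k, y i = y' i) → (∀ i ∈ K k, x i = x' i) →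
      (y, x) ∈ X k → (y', x') ∈ X k)
    (hJd : ∀ k, ∀ p : Cond ℕ Λ, p.Below L → Dc ℕ L (p.On (J k)))
    (hKd : ∀ k, ∀ s : Cond (Fin 2) I, Dc (Fin 2) univ (s.On (K k)))
    (hXd : ∀ k, DcP L (X k)) (p : Cond ℕ Λ) (hp : p.Below L) (s : Cond (Fin 2) I) :
    (∃ k, ∃ p' ≤ p, p'.Below L ∧ ∃ s' ≤ s, p'.body ×ˢ s'.body ⊆ X k) ∨
      (∃ p' ≤ p, p'.Below L ∧ ∃ s' ≤ s, ∀ k, Disjoint (p'.body ×ˢ s'.body) (X k)) := by
  classical
  let E : ℕ → Cond ℕ Λ → Cond (Fin 2) I → Prop := fun k R t =>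
    Dd (R.body ×ˢ t.body) (X k) ∧ Dd R.body (p.On (J k)) ∧ Dd t.body (s.On (K k))
  have dens : ∀ (k : ℕ) (R : Cond ℕ Λ) (t : Cond (Fin 2) I), ∃ (R' : Cond ℕ Λ)
      (t' : Cond (Fin 2) I), R.Below L → (R' ≤ R ∧ R'.Below L ∧ t' ≤ t ∧ E k R' t') := by
    intro k R t
    by_cases hR : R.Below L
    · obtain ⟨R1, h1, h2, t1, h3, h4⟩ := hXd k R hR t
      obtain ⟨R2, h5, h6, h7⟩ := hJd k p hp R1 h2
      obtain ⟨t2, h8, _, h10⟩ := hKd k s t1 (Cond.below_univ _)
      exact ⟨R2, t2, fun _ => ⟨h5.trans h1, h6, h8.trans h3,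
        h4.mono (Set.prod_mono h5 h8), h7, h10⟩⟩
    · exact ⟨R, t, fun h => (hR h).elim⟩
  choose fR ft hf using dens
  obtain ⟨OpM, hOpM⟩ := hClo.2 Λ
  obtain ⟨OpS, hOpS⟩ := hCrn I Λ
  obtain ⟨N, N', N'', hN, hN', _, hWN, hWN', hWN'', hcl⟩ := hHull (Cond ℕ Λ) (Cond (Fin 2) I) Unit
    (fun n a a' b _ _ => if n % 2 = 0 then OpM (n / 2) a a' else fR (n / 2) a b)
    (fun n a _ b b' _ => if n % 2 = 0 then OpS (n / 2) b b' else ft (n / 2) a b)
    (fun _ _ _ _ _ c => c) {p} {s} {()} (Set.countable_singleton _) (Set.countable_singleton _)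
    (Set.countable_singleton _)
  have hpN : p ∈ N := hWN rfl
  have hsN : s ∈ N' := hWN' rfl
  have hu : () ∈ N'' := hWN'' rfl
  have hev : ∀ k, ∀ a ∈ N, ∀ a' ∈ N, ∀ b ∈ N', ∀ b' ∈ N', OpM k a a' ∈ N ∧ OpS k b b' ∈ N' := by
    intro k a ha a' ha' b hb b' hb'
    have := hcl (2 * k) a ha a' ha' b hb b' hb' () hu
    simp only [Nat.mul_mod_right, if_true, Nat.mul_div_cancel_left k (show 0 < 2 by norm_num)] at this
    exact ⟨this.1, this.2.1⟩
  have hod : ∀ k, ∀ a ∈ N, ∀ b ∈ N', fR k a b ∈ N ∧ ft k a b ∈ N' := by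
    intro k a ha b hb
    have h := hcl (2 * k + 1) a ha a ha b hb b hb () hu
    have h1 : (2 * k + 1) % 2 = 1 := by omega
    have h2 : (2 * k + 1) / 2 = k := by omega
    simp only [h1, h2] at h
    exact ⟨by simpa using h.1, by simpa using h.2.1⟩
  have hCl : CloG N := hOpM N hN ⟨p, hpN⟩ fun k a ha b hb => (hev k a ha b hb s hsN s hsN).1
  have hCr : Crn I Λ N N' := hOpS N N' hCl hN' fun k a ha b hb => (hev k p hpN p hpN a ha b hb).2
  obtain ⟨p', hp', hp'L, s', hs', R, F, c, hR, _, _, _, hk⟩ := hCr L hL E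
    (by
      intro k q _ q' _ t _ t' _ hE hq ht
      exact ⟨hE.1.mono (Set.prod_mono hq ht), hE.2.1.mono hq, hE.2.2.mono ht⟩)
    (by
      intro k q hq hqL t ht
      obtain ⟨h1, h2, h3, h4⟩ := hf k q t hqL
      exact ⟨fR k q t, (hod k q hq t ht).1, h1, h2, ft k q t, (hod k q hq t ht).2, h3, h4⟩)
    p hpN hp s hsN
  by_cases hex : ∃ k, ∃ p' ≤ p, p'.Below L ∧ ∃ s' ≤ s, p'.body ×ˢ s'.body ⊆ X k
  · exact Or.inl hex
  refine Or.inr ⟨p', hp', hp'L, s', hs', fun k => ?_⟩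
  rw [Set.disjoint_left]
  rintro ⟨y, x⟩ ⟨hy, hx⟩ hyx
  simp only at hy hx
  obtain ⟨h1, h2, h3⟩ := hk k y hy
  obtain ⟨t, ht, hxt⟩ := h3 x hx
  obtain ⟨e1, e2, e3⟩ := h2 t ht
  have e1' := e1.subset (a := (y, x)) ⟨h1, hxt⟩ hyx
  have e2' := e2.subset h1 (p.body_subset_on _ (hp' hy))
  have e3' := e3.subset hxt (s.body_subset_on _ (hs' hx))
  apply hex
  refine ⟨k, Cond.glue ((R (c k y)).restr (J k)) p (J k), ?_, glue_restr_below (hR _).2 hp,
    Cond.glue (t.restr (K k)) s (K k), ?_, ?_⟩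
  · apply Cond.glue_le_right (Cond.restr_below _ _)
    intro z hz
    rw [Cond.restr_body] at hz ⊢
    exact on_subset_of_body (hJ k) (depOn_On p (hJ k)) e2' hz
  · apply Cond.glue_le_right (Cond.restr_below _ _)
    intro z hz
    rw [Cond.restr_body] at hz ⊢
    exact on_subset_of_body (hK k) (depOn_On s (hK k)) e3' hz
  · rintro ⟨z, w⟩ ⟨hz, hw⟩
    simp only at hz hw
    obtain ⟨z', h5, h6⟩ := (R (c k y)).exists_ext (J k) (hJ k) z (mem_glue_restr_body.1 hz).1
    obtain ⟨w', h7, h8⟩ := t.exists_ext (K k) (hK k) w (mem_glue_restr_body.1 hw).1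
    exact hX k z' z w' w h6 h8 (e1' ⟨h5, h7⟩)

theorem on_empty {D : Type} [MeasurableSpace D] [Alph D] {I : Type} [LinearOrder I]
    (p : Cond D I) : p.On ∅ = univ := by
  apply Set.eq_univ_of_forall
  intro y i hi
  exact hi.elim

theorem uuM (hCrn : CrnStmt) (hHull : HullStmt) (hClo : CloStmt) {L : Set Λ}
    (hL : IsLowerSet L) : UU ℕ L := by
  intro ι _ _ J X hJ hX hJd hXd p hp
  obtain ⟨e, he⟩ := exists_surjective_nat ι
  rcases unionP (I := ℕ) hCrn hHull hClo hL (fun n => J (e n)) (fun _ => ∅)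
    (fun n => hJ (e n)) (fun _ => isLowerSet_empty) (fun n => (X (e n)) ×ˢ univ)
    (fun k y y' _ _ h _ h2 => ⟨(hX (e k) y y' h).1 h2.1, trivial⟩) (fun n => hJd (e n))
    (fun _ s => by rw [on_empty]; exact dc_univ _) (by
      intro n q hq t
      obtain ⟨q', h1, h2, h3⟩ := hXd (e n) q hq
      refine ⟨q', h1, h2, t, le_rfl, ?_⟩
      rcases h3 with h3 | h3
      · left
        rintro ⟨y, x⟩ h
        exact ⟨h3 h.1, trivial⟩
      · right
        rw [Set.disjoint_left]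
        rintro ⟨y, x⟩ h h'
        exact Set.disjoint_left.1 h3 h.1 h'.1) p hp (Cond.one (Fin 2) ℕ) with
    ⟨k, p', h1, h2, s', _, h4⟩ | ⟨p', h1, h2, s', _, h4⟩
  · left
    refine ⟨e k, p', h1, h2, ?_⟩
    intro y hy
    obtain ⟨x, hx⟩ := s'.body_nonempty
    exact (h4 (a := (y, x)) ⟨hy, hx⟩).1
  · right
    refine ⟨p', h1, h2, fun i => ?_⟩
    obtain ⟨n, rfl⟩ := he i
    rw [Set.disjoint_left]
    intro y hy hy2
    obtain ⟨x, hx⟩ := s'.body_nonempty
    exact Set.disjoint_left.1 (h4 n) (show (y, x) ∈ p'.body ×ˢ s'.body from ⟨hy, hx⟩)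
      ⟨hy2, trivial⟩

theorem uuS (hCrn : CrnStmt) (hHull : HullStmt) (hClo : CloStmt) :
    UU (Fin 2) (univ : Set I) := by
  intro ι _ _ J X hJ hX hJd hXd p hp
  obtain ⟨e, he⟩ := exists_surjective_nat ι
  rcases unionP (Λ := ℕ) hCrn hHull hClo isLowerSet_empty (fun _ => ∅) (fun n => J (e n))
    (fun _ => isLowerSet_empty) (fun n => hJ (e n)) (fun n => univ ×ˢ (X (e n)))
    (fun k _ _ x x' _ h h2 => ⟨trivial, (hX (e k) x x' h).1 h2.2⟩)
    (fun _ s _ => by rw [on_empty]; exact dc_univ _) (fun n s => hJd (e n) s s.below_univ) (by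
      intro n q hq t
      obtain ⟨t', h1, h2, h3⟩ := hXd (e n) t t.below_univ
      refine ⟨q, le_rfl, hq, t', h1, ?_⟩
      rcases h3 with h3 | h3
      · left
        rintro ⟨y, x⟩ h
        exact ⟨trivial, h3 h.2⟩
      · right
        rw [Set.disjoint_left]
        rintro ⟨y, x⟩ h h'
        exact Set.disjoint_left.1 h3 h.2 h'.2) (Cond.one ℕ ℕ) (fun _ _ _ => rfl) p with
    ⟨k, p', _, _, s', h3, h4⟩ | ⟨p', _, _, s', h3, h4⟩
  · left
    refine ⟨e k, s', h3, s'.below_univ, ?_⟩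
    intro x hx
    obtain ⟨y, hy⟩ := p'.body_nonempty
    exact (h4 (a := (y, x)) ⟨hy, hx⟩).2
  · right
    refine ⟨s', h3, s'.below_univ, fun i => ?_⟩
    obtain ⟨n, rfl⟩ := he i
    rw [Set.disjoint_left]
    intro x hx hx2
    obtain ⟨y, hy⟩ := p'.body_nonempty
    exact Set.disjoint_left.1 (h4 n) (show (y, x) ∈ p'.body ×ˢ s'.body from ⟨hy, hx⟩)
      ⟨trivial, hx2⟩

theorem measurable_trunc {D : Type} [MeasurableSpace D] [Alph D] {I : Type} [LinearOrder I]
    (J : Set I) : Measurable (trunc (D := D) J) := by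
  rw [measurable_pi_iff]
  intro i
  by_cases hi : i ∈ J
  · have : (fun y : Pt D I => trunc J y i) = fun y => y i := by
      funext y
      simp [trunc, hi]
    rw [this]
    exact measurable_pi_apply i
  · have : (fun y : Pt D I => trunc J y i) = fun _ => fun _ => Alph.inhab := by
      funext y
      simp [trunc, hi]
    rw [this]
    exact measurable_const

theorem DcP.of_fst {L : Set Λ} {A : Set (Pt ℕ Λ)} (h : Dc ℕ L A) :
    DcP L {z : Pt ℕ Λ × Pt (Fin 2) I | z.1 ∈ A} := by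
  intro p hp s
  obtain ⟨p', h1, h2, h3⟩ := h p hp
  refine ⟨p', h1, h2, s, le_rfl, ?_⟩
  rcases h3 with h3 | h3
  · left
    rintro ⟨y, x⟩ h
    exact h3 h.1
  · right
    rw [Set.disjoint_left]
    rintro ⟨y, x⟩ h h'
    exact Set.disjoint_left.1 h3 h.1 h'

theorem DcP.of_snd {L : Set Λ} {A : Set (Pt (Fin 2) I)} (h : Dc (Fin 2) univ A) :
    DcP L {z : Pt ℕ Λ × Pt (Fin 2) I | z.2 ∈ A} := by
  intro p hp s
  obtain ⟨s', h1, _, h3⟩ := h s s.below_univ
  refine ⟨p, le_rfl, hp, s', h1, ?_⟩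
  rcases h3 with h3 | h3
  · left
    rintro ⟨y, x⟩ h
    exact h3 h.2
  · right
    rw [Set.disjoint_left]
    rintro ⟨y, x⟩ h h'
    exact Set.disjoint_left.1 h3 h.2 h'

theorem DcP.compl {L : Set Λ} {A : Set (Pt ℕ Λ × Pt (Fin 2) I)} (h : DcP L A) : DcP L Aᶜ := by
  intro p hp s
  obtain ⟨p', h1, h2, s', h3, h4⟩ := h p hp s
  exact ⟨p', h1, h2, s', h3, h4.compl⟩

theorem dcP_empty {L : Set Λ} : DcP L (∅ : Set (Pt ℕ Λ × Pt (Fin 2) I)) :=
  fun p hp s => ⟨p, le_rfl, hp, s, le_rfl, Or.inr (disjoint_empty _)⟩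

/-- Measurable sets of pairs are decided. -/
theorem dcP_all (hCrn : CrnStmt) (hHull : HullStmt) (hClo : CloStmt) {L : Set Λ}
    (hL : IsLowerSet L) (X : Set (Pt ℕ Λ × Pt (Fin 2) I)) (hX : MeasurableSet X)
    (hXL : DepP L X) : DcP L X := by
  have hM := dc_all (uuM hCrn hHull hClo hL) hL hL subset_rfl
  have hS := dc_all (uuS (I := I) hCrn hHull hClo) isLowerSet_univ isLowerSet_univ subset_rfl
  let φ : Pt ℕ Λ × Pt (Fin 2) I → Pt ℕ Λ × Pt (Fin 2) I := fun z => (trunc L z.1, z.2)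
  let m' : MeasurableSpace (Pt ℕ Λ × Pt (Fin 2) I) :=
    { MeasurableSet' := fun B => DcP L (φ ⁻¹' B)
      measurableSet_empty := dcP_empty
      measurableSet_compl := fun B hB => by
        have : φ ⁻¹' Bᶜ = (φ ⁻¹' B)ᶜ := rfl
        rw [this]
        exact DcP.compl hB
      measurableSet_iUnion := fun B hB => by
        intro p hp s
        rcases unionP hCrn hHull hClo hL (fun _ => L) (fun _ => univ) (fun _ => hL)
          (fun _ => isLowerSet_univ) (fun k => φ ⁻¹' (B k))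
          (fun k y y' x x' h h' hz => by
            have : x = x' := funext fun i => h' i trivial
            subst this
            change (trunc L y', x) ∈ B k
            rw [← trunc_congr L h]
            exact hz)
          (fun _ q _ => hM _ (q.measurableSet_on _) (depOn_On q hL))
          (fun _ t => hS _ (t.measurableSet_on _) (depOn_On t isLowerSet_univ)) hB p hp s with
          ⟨k, p', h1, h2, s', h3, h4⟩ | ⟨p', h1, h2, s', h3, h4⟩
        · refine ⟨p', h1, h2, s', h3, Or.inl ?_⟩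
          intro z hz
          exact Set.mem_iUnion.2 ⟨k, h4 hz⟩
        · refine ⟨p', h1, h2, s', h3, Or.inr ?_⟩
          rw [Set.preimage_iUnion, Set.disjoint_iUnion_right]
          exact h4 }
  have hle : (Prod.instMeasurableSpace : MeasurableSpace (Pt ℕ Λ × Pt (Fin 2) I)) ≤ m' := by
    have h1 : @Measurable (Pt ℕ Λ × Pt (Fin 2) I) (Pt ℕ Λ) m' MeasurableSpace.pi Prod.fst := by
      rw [@measurable_pi_iff]
      intro i
      rw [@measurable_pi_iff]
      intro n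
      refine @measurable_to_countable' ℕ (Pt ℕ Λ × Pt (Fin 2) I) _ _ m' _ ?_
      intro a
      change DcP L {z : Pt ℕ Λ × Pt (Fin 2) I | z.1 ∈ {y | trunc L y i n = a}}
      apply DcP.of_fst
      apply hM
      · have h5 : Measurable fun y : Pt ℕ Λ => trunc L y i n :=
          (measurable_pi_apply n).comp ((measurable_pi_apply i).comp (measurable_trunc L))
        exact h5 (measurableSet_singleton a)
      · intro y y' h
        simp only [Set.mem_ofPred_eq, trunc_congr L h]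
    have h2 : @Measurable (Pt ℕ Λ × Pt (Fin 2) I) (Pt (Fin 2) I) m' MeasurableSpace.pi
        Prod.snd := by
      rw [@measurable_pi_iff]
      intro i
      rw [@measurable_pi_iff]
      intro n
      refine @measurable_to_countable' (Fin 2) (Pt ℕ Λ × Pt (Fin 2) I) _ _ m' _ ?_
      intro a
      change DcP L {z : Pt ℕ Λ × Pt (Fin 2) I | z.2 ∈ {x | x i n = a}}
      apply DcP.of_snd
      apply hS
      · have h5 : Measurable fun x : Pt (Fin 2) I => x i n :=
          (measurable_pi_apply n).comp (measurable_pi_apply i)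
        exact h5 (measurableSet_singleton a)
      · intro y y' h
        simp only [Set.mem_ofPred_eq, h i trivial]
    exact sup_le h1.comap_le h2.comap_le
  have h1 : DcP L (φ ⁻¹' X) := hle X hX
  have : φ ⁻¹' X = X := by
    ext ⟨y, x⟩
    exact hXL _ _ x (trunc_eq L y)
  rwa [this] at h1

/-- Countable covers by measurable sets. -/
theorem coverP (hCrn : CrnStmt) (hHull : HullStmt) (hClo : CloStmt) {L : Set Λ}
    (hL : IsLowerSet L) (X : ℕ → Set (Pt ℕ Λ × Pt (Fin 2) I)) (hX : ∀ k, MeasurableSet (X k))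
    (hXL : ∀ k, DepP L (X k)) (p : Cond ℕ Λ) (hp : p.Below L) (s : Cond (Fin 2) I)
    (hc : ∀ y ∈ p.body, ∀ x ∈ s.body, ∃ k, (y, x) ∈ X k) :
    ∃ k, ∃ p' ≤ p, p'.Below L ∧ ∃ s' ≤ s, p'.body ×ˢ s'.body ⊆ X k := by
  have hM := dc_all (uuM hCrn hHull hClo hL) hL hL subset_rfl
  have hS := dc_all (uuS (I := I) hCrn hHull hClo) isLowerSet_univ isLowerSet_univ subset_rfl
  rcases unionP hCrn hHull hClo hL (fun _ => L) (fun _ => univ) (fun _ => hL)
    (fun _ => isLowerSet_univ) X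
    (fun k y y' x x' h h' hz => by
      have : x = x' := funext fun i => h' i trivial
      subst this
      exact (hXL k y y' x h).1 hz)
    (fun _ q _ => hM _ (q.measurableSet_on _) (depOn_On q hL))
    (fun _ t => hS _ (t.measurableSet_on _) (depOn_On t isLowerSet_univ))
    (fun k => dcP_all hCrn hHull hClo hL _ (hX k) (hXL k)) p hp s with
    h | ⟨p', h1, _, s', h3, h4⟩
  · exact h
  · exfalso
    obtain ⟨y, hy⟩ := p'.body_nonempty
    obtain ⟨x, hx⟩ := s'.body_nonempty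
    obtain ⟨k, hk⟩ := hc y (h1 hy) x (h3 hx)
    exact Set.disjoint_left.1 (h4 k) (show (y, x) ∈ p'.body ×ˢ s'.body from ⟨hy, hx⟩) hk

end

theorem dich (hCrn : CrnStmt) (hHull : HullStmt) (hClo : CloStmt) : DichStmt := by
  intro I Λ _ _ _ _ L hL X hX hXL p s hp
  exact dcP_all hCrn hHull hClo hL X hX hXL p hp s

theorem const (hCrn : CrnStmt) (hHull : HullStmt) (hClo : CloStmt) : ConstStmt := by
  intro I Λ _ _ _ _ L hL f hf hfL p s hp
  obtain ⟨k, p', h1, h2, s', h3, h4⟩ := coverP hCrn hHull hClo hL (fun k => {z | f z = k})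
    (fun k => hf (measurableSet_singleton k))
    (fun k y y' x h => by simp only [Set.mem_ofPred_eq, hfL y y' x h]) p hp s
    (fun y _ x _ => ⟨f (y, x), rfl⟩)
  exact ⟨p', h1, h2, s', h3, k, fun y hy x hx => h4 (a := (y, x)) ⟨hy, hx⟩⟩

theorem stem (hCrn : CrnStmt) (hHull : HullStmt) (hClo : CloStmt) : StemStmt := by
  intro Λ _ _ L hL j hjL p hp
  have hU := uuM hCrn hHull hClo hL
  have hjd := dc_all hU hL (isLowerSet_Iio j) (fun i hi => hL (le_of_lt hi) hjL)
  have hD : ∀ τ : Node, DepOn (Iio j) {y : Pt ℕ Λ | τ ∈ p.T j y ∧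
      {a | τ ++ [a] ∈ p.T j y}.Infinite} := by
    intro τ y y' hyy
    have e1 := p.T_congr (i := j) (y := y) (y' := y') fun i hi => hyy i hi
    simp only [Set.mem_ofPred_eq, e1]
  obtain ⟨τ, p1, h1, h2, h3⟩ := exists_of_cover hU (ι := Node) j hjd
    (fun τ => {y : Pt ℕ Λ | τ ∈ p.T j y ∧ {a | τ ++ [a] ∈ p.T j y}.Infinite})
    (fun τ => (p.meas j (measurableSet_mem_node τ)).inter
      (p.meas j (measurableSet_infinite_succ τ))) hD
    (fun y => by
      have h : Supf (p.T j y) := p.good j y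
      obtain ⟨τ, h1, _, h2⟩ := h.split [] h.nil
      exact ⟨τ, h1, h2⟩) p hp
  have hle : Cond.glue (p1.restr (Iio j)) (p.node j τ) (Iio j) ≤ p.node j τ := by
    apply Cond.glue_le_right (p1.restr_below _)
    apply Cond.le_of_T
    intro y hy i
    rw [p.node_restr_T (by simp) τ]
    exact Cond.T_subset (Cond.restr_mono (isLowerSet_Iio j) h1) hy i
  refine ⟨Cond.glue (p1.restr (Iio j)) (p.node j τ) (Iio j), hle.trans (p.node_le j τ),
    glue_restr_below h2 (Cond.node_below hp hjL τ), τ, ?_⟩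
  intro y hy
  have h8 : τ ∈ p.T j y ∧ {a | τ ++ [a] ∈ p.T j y}.Infinite :=
    on_subset_of_body (isLowerSet_Iio j) (hD τ) h3 (mem_glue_restr_body.1 hy).1
  rw [Cond.glue_T' _ _ (show j ∉ Iio j by simp), p.node_T h8.1]
  refine ⟨fun ρ hρ => hρ.2, ⟨h8.1, Or.inl List.prefix_rfl⟩, ?_⟩
  exact h8.2.mono fun a ha => ⟨ha, Or.inr (List.prefix_append _ _)⟩

end Pool.Agent.Men.RR.H53
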