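import Pool.Agent.Helper22_Men.Defs

/-!
# Squad MEN, module DICH: one sided version
-/

open MeasureTheory Set

set_option linter.unusedSectionVars false
set_option linter.style.haveILetI false

namespace Pool.Agent.Men.RR.H53

section
variable (D : Type) [MeasurableSpace D] [Alph D] {I : Type} [LinearOrder I]

/-- The set `A` of points is decided. -/
def Dc (L : Set I) (A : Set (Pt D I)) : Prop :=
  ∀ p : Cond D I, p.Below L → ∃ p' ≤ p, p'.Below L ∧ (p'.body ⊆ A ∨ Disjoint p'.body A)

/-- The union step. -/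
def UU (L : Set I) : Prop :=
  ∀ (ι : Type) [Countable ι] [Nonempty ι] (J : ι → Set I) (X : ι → Set (Pt D I)),
    (∀ k, IsLowerSet (J k)) → (∀ k, DepOn (J k) (X k)) →
    (∀ k, ∀ p : Cond D I, p.Below L → Dc D L (p.On (J k))) → (∀ k, Dc D L (X k)) →
    ∀ p : Cond D I, p.Below L → (∃ k, ∃ p' ≤ p, p'.Below L ∧ p'.body ⊆ X k) ∨
      (∃ p' ≤ p, p'.Below L ∧ ∀ k, Disjoint p'.body (X k))

end

section
variable {D : Type} [MeasurableSpace D] [Alph D] {I : Type} [LinearOrder I] [WellFoundedLT I]

theorem Dc.compl {L : Set I} {A : Set (Pt D I)} (h : Dc D L A) : Dc D L Aᶜ := by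
  intro p hp
  obtain ⟨p', h1, h2, h3⟩ := h p hp
  refine ⟨p', h1, h2, ?_⟩
  rcases h3 with h3 | h3
  · right; exact Set.disjoint_compl_right_iff_subset.2 h3
  · left; exact Set.subset_compl_iff_disjoint_right.2 h3

theorem dc_univ (L : Set I) : Dc D L (univ : Set (Pt D I)) :=
  fun p hp => ⟨p, le_rfl, hp, Or.inl (subset_univ _)⟩

theorem dc_empty (L : Set I) : Dc D L (∅ : Set (Pt D I)) :=
  fun p hp => ⟨p, le_rfl, hp, Or.inr (disjoint_empty _)⟩

theorem countable_D : Countable D := (Alph.inj (D := D)).countable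

theorem depOn_On (p : Cond D I) {J : Set I} (hJ : IsLowerSet J) : DepOn J (p.On J) :=
  fun _ _ h => p.on_congr hJ h

/-- Replacing the part of `p` on `J` (a lower set) by a stronger condition. -/
theorem glue_restr_le_right {J : Set I} (hJ : IsLowerSet J) {r p : Cond D I} (h : r ≤ p) :
    Cond.glue (r.restr J) p J ≤ p :=
  Cond.glue_le_right (r.restr_below J) (Cond.restr_mono hJ h)

theorem glue_restr_below {J L : Set I} {r p : Cond D I} (hr : r.Below L) (hp : p.Below L) :
    (Cond.glue (r.restr J) p J).Below L := by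
  intro i hi y
  by_cases hiJ : i ∈ J
  · rw [Cond.glue_T _ _ hiJ, Cond.restr_T _ hiJ, hr i hi]
  · rw [Cond.glue_T' _ _ hiJ, hp i hi]

theorem mem_glue_restr_body {J : Set I} {r p : Cond D I} {y : Pt D I} :
    y ∈ (Cond.glue (r.restr J) p J).body ↔ y ∈ r.On J ∧ ∀ i, i ∉ J → y i ∈ Men.body D (p.T i y) := by
  rw [Cond.mem_glue_body]
  apply and_congr_left'
  constructor
  · intro h i hi
    have := h i hi
    rwa [Cond.restr_T _ hi] at this
  · intro h i hi
    rw [Cond.restr_T _ hi]
    exact h i hi

/-- A set depending on `J` which contains the body of `r` contains all partial points of `r`. -/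
theorem on_subset_of_body {J : Set I} (hJ : IsLowerSet J) {r : Cond D I} {A : Set (Pt D I)}
    (hA : DepOn J A) (h : r.body ⊆ A) : r.On J ⊆ A := by
  intro y hy
  obtain ⟨y', h1, h2⟩ := r.exists_ext J hJ y hy
  exact (hA y y' fun i hi => (h2 i hi).symm).2 (h h1)

variable {L : Set I}

/-- Countable covers by decided sets. -/
theorem exists_of_cover (hU : UU D L) {ι : Type} [Countable ι] [Nonempty ι] (j : I)
    (hj : ∀ A, MeasurableSet A → DepOn (Iio j) A → Dc D L A) (X : ι → Set (Pt D I))
    (hX : ∀ k, MeasurableSet (X k)) (hd : ∀ k, DepOn (Iio j) (X k)) (hc : ∀ y, ∃ k, y ∈ X k)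
    (p : Cond D I) (hp : p.Below L) : ∃ k, ∃ p' ≤ p, p'.Below L ∧ p'.body ⊆ X k := by
  rcases hU ι (fun _ => Iio j) X (fun _ => isLowerSet_Iio j) hd
    (fun _ q _ => hj _ (q.measurableSet_on _) (depOn_On q (isLowerSet_Iio j)))
    (fun k => hj _ (hX k) (hd k)) p hp with h | ⟨p', _, _, h3⟩
  · exact h
  · exfalso
    obtain ⟨y, hy⟩ := p'.body_nonempty
    obtain ⟨k, hk⟩ := hc y
    exact Set.disjoint_left.1 (h3 k) hy hk

/-- Bodies up to the coordinate `j`. -/
theorem dc_On_Iic (hU : UU D L) {j : I} (hjL : j ∈ L)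
    (hj : ∀ A, MeasurableSet A → DepOn (Iio j) A → Dc D L A) (p : Cond D I) :
    Dc D L (p.On (Iic j)) := by
  intro p1 hp1
  obtain ⟨p2, h1, h2, h3⟩ := hj _ (p.measurableSet_on _) (depOn_On p (isLowerSet_Iio j)) p1 hp1
  have hsub : p.On (Iic j) ⊆ p.On (Iio j) := fun y hy i hi => hy i (le_of_lt hi)
  rcases h3 with h3 | h3
  swap
  · exact ⟨p2, h1, h2, Or.inr (h3.mono_right hsub)⟩
  obtain ⟨k, p3, h4, h5, h6⟩ := exists_of_cover hU (ι := Option Node) j hj
    (fun k => match k with
      | none => {y | ∀ τ, τ ∈ p2.T j y → τ ∈ p.T j y}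
      | some τ => {y | τ ∈ p2.T j y ∧ τ ∉ p.T j y}) (by
        intro k
        match k with
        | none =>
          have : {y : Pt D I | ∀ τ, τ ∈ p2.T j y → τ ∈ p.T j y} =
              ⋂ τ : Node, {y | τ ∈ p2.T j y → τ ∈ p.T j y} := by ext; simp
          simp only [this]
          exact MeasurableSet.iInter fun τ => measurableSet_imp
            (p2.meas j (measurableSet_mem_node τ)) (p.meas j (measurableSet_mem_node τ))
        | some τ =>
          exact (p2.meas j (measurableSet_mem_node τ)).inter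
            (p.meas j (measurableSet_mem_node τ)).compl) (by
        intro k y y' hyy
        have e1 := p2.T_congr (i := j) (y := y) (y' := y') fun i hi => hyy i hi
        have e2 := p.T_congr (i := j) (y := y) (y' := y') fun i hi => hyy i hi
        match k with
        | none => simp only [Set.mem_ofPred_eq, e1, e2]
        | some τ => simp only [Set.mem_ofPred_eq, e1, e2]) (by
        intro y
        by_cases h : ∀ τ, τ ∈ p2.T j y → τ ∈ p.T j y
        · exact ⟨none, h⟩
        · push Not at h
          obtain ⟨τ, h⟩ := h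
          exact ⟨some τ, h⟩) p2 h2
  match k, h6 with
  | none, h6 =>
    refine ⟨p3, h4.trans h1, h5, Or.inl ?_⟩
    intro y hy i hi
    rcases lt_or_eq_of_le (Set.mem_Iic.1 hi) with hi | rfl
    · exact h3 (h4 hy) i hi
    · exact body_mono (h6 hy) (h4 hy i)
  | some τ, h6 =>
    have hD : DepOn (Iio j) {y : Pt D I | τ ∈ p2.T j y ∧ τ ∉ p.T j y} := by
      intro y y' hyy
      have e1 := p2.T_congr (i := j) (y := y) (y' := y') fun i hi => hyy i hi
      have e2 := p.T_congr (i := j) (y := y) (y' := y') fun i hi => hyy i hi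
      simp only [Set.mem_ofPred_eq, e1, e2]
    have hle : Cond.glue (p3.restr (Iio j)) (p2.node j τ) (Iio j) ≤ p2.node j τ := by
      apply Cond.glue_le_right (p3.restr_below _)
      apply Cond.le_of_T
      intro y hy i
      rw [p2.node_restr_T (by simp) τ]
      exact Cond.T_subset (Cond.restr_mono (isLowerSet_Iio j) h4) hy i
    refine ⟨Cond.glue (p3.restr (Iio j)) (p2.node j τ) (Iio j),
      (hle.trans (p2.node_le j τ)).trans h1,
      glue_restr_below h5 (Cond.node_below h2 hjL τ), Or.inr ?_⟩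
    rw [Set.disjoint_left]
    intro y hy hy2
    have h7 := mem_glue_restr_body.1 hy
    have h8 : τ ∈ p2.T j y ∧ τ ∉ p.T j y :=
      on_subset_of_body (isLowerSet_Iio j) hD h6 h7.1
    have h9 := h7.2 j (by simp)
    rw [p2.node_T h8.1, mem_body_sub] at h9
    have h10 := hy2 j (Set.mem_Iic.2 le_rfl) τ.length
    rw [h9.2] at h10
    exact h8.2 h10

/-- Bodies up to a lower set. -/
theorem dc_On (hU : UU D L) {J : Set I} (hJ : IsLowerSet J) (hJL : J ⊆ L)
    (hj : ∀ j ∈ J, ∀ A, MeasurableSet A → DepOn (Iio j) A → Dc D L A) (p : Cond D I) :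
    Dc D L (p.On J) := by
  by_cases hne : (p.S ∩ J).Nonempty
  swap
  · have : p.On J = univ := by
      apply Set.eq_univ_of_forall
      intro y i hi
      have : i ∉ p.S := fun h => hne ⟨i, h, hi⟩
      rw [p.full' i this]; simp
    rw [this]
    exact dc_univ L
  haveI : Nonempty (p.S ∩ J : Set I) := hne.to_subtype
  haveI : Countable (p.S ∩ J : Set I) := (p.scount.mono Set.inter_subset_left).to_subtype
  intro p1 hp1
  rcases hU (p.S ∩ J : Set I) (fun k => Iic k.1) (fun k => (p.On (Iic k.1))ᶜ)
    (fun k => isLowerSet_Iic k.1)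
    (fun k y y' h => not_congr (p.on_congr (isLowerSet_Iic k.1) h))
    (fun k q _ => dc_On_Iic hU (hJL k.2.2) (hj k.1 k.2.2) q)
    (fun k => (dc_On_Iic hU (hJL k.2.2) (hj k.1 k.2.2) p).compl) p1 hp1 with
    ⟨k, p', h1, h2, h3⟩ | ⟨p', h1, h2, h3⟩
  · refine ⟨p', h1, h2, Or.inr ?_⟩
    rw [Set.disjoint_left]
    intro y hy hy2
    exact h3 hy fun i hi => hy2 i (hJ hi k.2.2)
  · refine ⟨p', h1, h2, Or.inl ?_⟩
    intro y hy i hi
    by_cases hiS : i ∈ p.S
    · have h4 := Set.disjoint_left.1 (h3 ⟨i, hiS, hi⟩) hy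
      rw [Set.mem_compl_iff, not_not] at h4
      exact h4 i (Set.mem_Iic.2 le_rfl)
    · rw [p.full' i hiS]; simp

/-- The generators are decided. -/
theorem dc_gen (hU : UU D L) {j : I} (hjL : j ∈ L)
    (hj : ∀ A, MeasurableSet A → DepOn (Iio j) A → Dc D L A) (n : ℕ) (a : D) :
    Dc D L {y : Pt D I | y j n = a} := by
  intro p hp
  haveI : Nonempty {τ : Node // τ.length = n + 1} := ⟨⟨List.replicate (n + 1) 0, by simp⟩⟩
  obtain ⟨k, p1, h1, h2, h3⟩ := exists_of_cover hU (ι := {τ : Node // τ.length = n + 1}) j hj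
    (fun k => {y | k.1 ∈ p.T j y}) (fun k => p.meas j (measurableSet_mem_node k.1))
    (fun k y y' hyy => by
      have e2 := p.T_congr (i := j) (y := y) (y' := y') fun i hi => hyy i hi
      simp only [Set.mem_ofPred_eq, e2])
    (fun y => by
      obtain ⟨t, ht⟩ := body_nonempty (p.good j y)
      exact ⟨⟨pre t (n + 1), by simp⟩, ht (n + 1)⟩) p hp
  obtain ⟨τ, hτ⟩ := k
  have hD : DepOn (Iio j) {y : Pt D I | τ ∈ p.T j y} := by
    intro y y' hyy
    have e2 := p.T_congr (i := j) (y := y) (y' := y') fun i hi => hyy i hi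
    simp only [Set.mem_ofPred_eq, e2]
  have hle : Cond.glue (p1.restr (Iio j)) (p.node j τ) (Iio j) ≤ p.node j τ := by
    apply Cond.glue_le_right (p1.restr_below _)
    apply Cond.le_of_T
    intro y hy i
    rw [p.node_restr_T (by simp) τ]
    exact Cond.T_subset (Cond.restr_mono (isLowerSet_Iio j) h1) hy i
  refine ⟨Cond.glue (p1.restr (Iio j)) (p.node j τ) (Iio j), hle.trans (p.node_le j τ),
    glue_restr_below h2 (Cond.node_below hp hjL τ), ?_⟩
  have key : ∀ y ∈ (Cond.glue (p1.restr (Iio j)) (p.node j τ) (Iio j)).body,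
      pre (y j) (n + 1) = τ := by
    intro y hy
    have h7 := mem_glue_restr_body.1 hy
    have h8 : τ ∈ p.T j y := on_subset_of_body (isLowerSet_Iio j) hD h3 h7.1
    have h9 := h7.2 j (by simp)
    rw [p.node_T h8, mem_body_sub, hτ] at h9
    exact h9.2
  by_cases ha : τ.getD n 0 = Alph.toN a
  · left
    intro y hy
    have h1 := key y hy
    have h2 : Alph.toN (y j n) = Alph.toN a := by
      rw [← ha, ← h1, List.getD_eq_getElem _ _ (by simp), getElem_pre]
    exact Alph.inj h2
  · right
    rw [Set.disjoint_left]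
    intro y hy hya
    apply ha
    have h1 := key y hy
    have hya' : y j n = a := hya
    rw [← h1, List.getD_eq_getElem _ _ (by simp), getElem_pre, hya']

open Classical in
/-- Truncation. -/
noncomputable def trunc (J : Set I) (y : Pt D I) : Pt D I :=
  fun i => if i ∈ J then y i else fun _ => Alph.inhab

theorem trunc_congr (J : Set I) {y y' : Pt D I} (h : ∀ i ∈ J, y i = y' i) :
    trunc J y = trunc J y' := by
  funext i
  by_cases hi : i ∈ J
  · simp [trunc, hi, h i hi]
  · simp [trunc, hi]

theorem trunc_eq (J : Set I) (y : Pt D I) : ∀ i ∈ J, trunc J y i = y i := by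
  intro i hi
  simp [trunc, hi]

theorem dc_step (hU : UU D L) {J : Set I} (hJ : IsLowerSet J) (hJL : J ⊆ L)
    (hj : ∀ j ∈ J, ∀ A, MeasurableSet A → DepOn (Iio j) A → Dc D L A) :
    ∀ A, MeasurableSet A → DepOn J A → Dc D L A := by
  have hgood : ∀ p : Cond D I, Dc D L (p.On J) := fun p => dc_On hU hJ hJL hj p
  let m' : MeasurableSpace (Pt D I) :=
    { MeasurableSet' := fun B => Dc D L (trunc J ⁻¹' B)
      measurableSet_empty := dc_empty L
      measurableSet_compl := fun B hB => by
        have : trunc (D := D) J ⁻¹' Bᶜ = (trunc J ⁻¹' B)ᶜ := rfl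
        rw [this]
        exact Dc.compl hB
      measurableSet_iUnion := fun B hB => by
        intro p hp
        rcases hU ℕ (fun _ => J) (fun k => trunc J ⁻¹' (B k)) (fun _ => hJ)
          (fun k y y' h => by
            change trunc J y ∈ B k ↔ trunc J y' ∈ B k
            rw [trunc_congr J h])
          (fun _ q _ => hgood q) hB p hp with ⟨k, p', h1, h2, h3⟩ | ⟨p', h1, h2, h3⟩
        · refine ⟨p', h1, h2, Or.inl ?_⟩
          intro y hy
          exact Set.mem_iUnion.2 ⟨k, h3 hy⟩
        · refine ⟨p', h1, h2, Or.inr ?_⟩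
          rw [Set.preimage_iUnion, Set.disjoint_iUnion_right]
          exact h3 }
  haveI := countable_D (D := D)
  have hle : (MeasurableSpace.pi : MeasurableSpace (Pt D I)) ≤ m' := by
    have h1 : @Measurable (Pt D I) (Pt D I) m' MeasurableSpace.pi id := by
      rw [@measurable_pi_iff]
      intro i
      rw [@measurable_pi_iff]
      intro n
      refine @measurable_to_countable' D (Pt D I) _ _ m' _ ?_
      intro a
      change Dc D L (trunc J ⁻¹' {y | y i n = a})
      by_cases hi : i ∈ J
      · have : trunc (D := D) J ⁻¹' {y | y i n = a} = {y | y i n = a} := by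
          ext y
          simp [trunc, hi]
        rw [this]
        exact dc_gen hU (hJL hi) (hj i hi) n a
      · by_cases ha : Alph.inhab = a
        · have : trunc (D := D) J ⁻¹' {y | y i n = a} = univ := by
            apply Set.eq_univ_of_forall
            intro y
            simp [trunc, hi, ha]
          rw [this]
          exact dc_univ L
        · have : trunc (D := D) J ⁻¹' {y | y i n = a} = ∅ := by
            apply Set.eq_empty_of_forall_notMem
            intro y
            simp [trunc, hi, ha]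
          rw [this]
          exact dc_empty L
    intro B hB
    exact h1 hB
  intro A hA hdep
  have h1 : Dc D L (trunc J ⁻¹' A) := hle A hA
  have : trunc (D := D) J ⁻¹' A = A := by
    ext y
    exact hdep _ _ (trunc_eq J y)
  rwa [this] at h1

/-- One sided dichotomy. -/
theorem dc_all (hU : UU D L) (hL : IsLowerSet L) {J : Set I} (hJ : IsLowerSet J) (hJL : J ⊆ L) :
    ∀ A, MeasurableSet A → DepOn J A → Dc D L A := by
  have key : ∀ j, j ∈ L → ∀ A, MeasurableSet A → DepOn (Iio j) A → Dc D L A := by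
    intro j
    induction j using WellFoundedLT.induction with
    | ind j ih =>
      intro hj
      exact dc_step hU (isLowerSet_Iio j) (fun k hk => hL (le_of_lt hk) hj)
        fun k hk => ih k hk (hL (le_of_lt hk) hj)
  exact dc_step hU hJ hJL fun j hj => key j (hJL hj)

end

end Pool.Agent.Men.RR.H53
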